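import Pool.Agent.H6.FN.Targets2
import Pool.Agent.H60.FCN.CNA

set_option autoImplicit false

/-! # FI.T_CNAk: alternating groups of large degree (board fcn_modules, row CNAk) -/

open scoped Classical

namespace Pool.Agent.H32.FN

open FI

theorem kc_of_subsingleton (P : Type) [Group P] [Subsingleton P] :
    Nat.card (ConjClasses P) = 1 := by
  have : Subsingleton (ConjClasses P) := by
    constructor
    intro a b
    obtain ⟨a, rfl⟩ := ConjClasses.mk_surjective a
    obtain ⟨b, rfl⟩ := ConjClasses.mk_surjective b
    rw [Subsingleton.elim a b]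
  have : Nonempty (ConjClasses P) := ⟨ConjClasses.mk 1⟩
  exact Nat.card_of_subsingleton (ConjClasses.mk 1)

theorem pf_CNAk (AUA : T_AUA) (NAMk : T_NAMk) (KN2 : T_KN2) (PAR : T_PAR) (KSB : T_KSB) :
    T_CNAk := by
  intro e he k S _ hS
  obtain ⟨m, hm0, ⟨E⟩⟩ := hS
  have hm : 100 ≤ m := by omega
  have hsimA : IsSimpleGroup (alternatingGroup (Fin m)) := by
    apply alternatingGroup.isSimpleGroup
    rw [Nat.card_eq_fintype_card, Fintype.card_fin]
    omega
  have : Nontrivial (Fin m) := Fin.nontrivial_iff_two_le.2 (by omega)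
  have : Finite S := Finite.of_equiv _ E.symm.toEquiv
  refine ⟨E.isSimpleGroup, ?_, ?_⟩
  · obtain ⟨a, b, hab⟩ := Pool.Agent.H60.FCN.alt_nab m (by omega)
    refine ⟨E.symm a, E.symm b, fun h => hab ?_⟩
    rw [← map_mul, ← map_mul] at h
    exact E.symm.injective h
  · intro j hj P
    have h1 : (Nat.card (ConjClasses S) : ℝ) ≤ 2 * Real.exp (27 / 10 * Real.sqrt m) := by
      have a1 : kc S ≤ 2 * kc (Equiv.Perm (Fin m)) := by
        calc kc S ≤ kc (alternatingGroup (Fin m)) := Pool.Agent.H60.FCN.kc_le_of_equiv E
          _ ≤ (alternatingGroup (Fin m)).index * kc (Equiv.Perm (Fin m)) := KSB _ _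
          _ = 2 * kc (Equiv.Perm (Fin m)) := by rw [alternatingGroup.index_eq_two]
      have a2 : (kc S : ℝ) ≤ 2 * (kc (Equiv.Perm (Fin m)) : ℝ) := by exact_mod_cast a1
      have a3 := PAR m
      have a4 : (kc S : ℝ) ≤ 2 * Real.exp (27 / 10 * Real.sqrt m) := by linarith
      exact a4
    have h2 : (Nat.card (MulAut S) : ℝ) ≤ (m.factorial : ℝ) := by
      have a1 : Nat.card (MulAut S) ≤ m.factorial := by
        rw [Nat.card_congr (MulAut.congr E).toEquiv]
        exact AUA m (by omega)
      exact_mod_cast a1
    have h3 : (Nat.card S : ℝ) = (m.factorial : ℝ) / 2 := by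
      have h4 : 2 * Nat.card S = m.factorial := by
        rw [Nat.card_congr E.toEquiv, two_mul_nat_card_alternatingGroup, Nat.card_perm,
          Nat.card_eq_fintype_card (α := Fin m), Fintype.card_fin]
      rw [← h4]
      push_cast
      ring
    have h5 : (Nat.card (ConjClasses S) : ℝ) * Nat.card (MulAut S) ≤
        2 * Real.exp (27 / 10 * Real.sqrt m) * (m.factorial : ℝ) :=
      mul_le_mul h1 h2 (Nat.cast_nonneg _) (by positivity)
    have h6 : (0 : ℝ) ≤ (Nat.card (ConjClasses S) : ℝ) * Nat.card (MulAut S) := by positivity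
    rw [h3]
    have hsub : j ≤ 1 → Nat.card (ConjClasses P) = 1 := by
      intro hj1
      have : Subsingleton (Fin j) := by
        constructor
        intro a b
        apply Fin.ext
        have := a.2
        have := b.2
        omega
      have : Subsingleton (Equiv.Perm (Fin j)) := by
        constructor
        intro a b
        apply Equiv.ext
        intro x
        exact Subsingleton.elim _ _
      exact kc_of_subsingleton P
    rcases Nat.eq_zero_or_pos j with hj0 | hj0
    · rw [hsub (by omega), hj0]
      simp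
    · rcases hm0 with hm1 | ⟨_, hk1⟩
      · have h7 : (Nat.card (ConjClasses P) : ℝ) ≤ Real.exp 20 ^ j := by
          have a1 := KN2 (Fin j) P
          have a2 : (Nat.card (ConjClasses P) : ℝ) ≤
            Real.exp 20 ^ (Nat.card (Fin j) - norb (Fin j) P) := a1
          refine a2.trans (pow_le_pow_right₀ (Real.one_le_exp (by norm_num)) ?_)
          rw [Nat.card_eq_fintype_card (α := Fin j), Fintype.card_fin]
          omega
        calc (Nat.card (ConjClasses P) : ℝ) *
              ((Nat.card (ConjClasses S) : ℝ) * Nat.card (MulAut S)) ^ j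
            ≤ Real.exp 20 ^ j *
              (2 * Real.exp (27 / 10 * Real.sqrt m) * (m.factorial : ℝ)) ^ j :=
              mul_le_mul h7 (pow_le_pow_left₀ h6 h5 j) (pow_nonneg h6 j) (by positivity)
          _ = (Real.exp 20 * (2 * Real.exp (27 / 10 * Real.sqrt m)) * (m.factorial : ℝ)) ^ j := by
              rw [← mul_pow]
              ring
          _ ≤ _ := pow_le_pow_left₀ (by positivity) ((NAMk e he m).1 hm1) j
      · have hj1 : j = 1 := by omega
        rw [hsub (by omega), hj1]
        simp only [pow_one, Nat.cast_one, one_mul]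
        exact h5.trans ((NAMk e he m).2 hm)

end Pool.Agent.H32.FN
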